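import Pool.Agent.H538.NN.E7

set_option autoImplicit false

/-!
# Buchstab's law for the numbers `n ^ n + 1` and almost every amplitude

A random integer of the size of `N` has no prime factor up to `N ^ (1 / u)` with the probability
`u * ω(u) / log N`, where `ω` is Buchstab's function (`u = 2` is the case of the primes, with `2 * ω(2) = 1`).  If
`n ^ n + 1` were random, the number of the `n ≤ x` for which `n ^ n + 1` has no such prime factor would be asymptotic
to `u * ω(u) * log log x`.  Of course this is false for `n ^ n + 1` itself (for odd `n` the number is even), but we prove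
it for the numbers `⌊β n ^ n⌋ + c` for almost every real `β > 0`, simultaneously for all `u > 1` and all shifts `c`; for
`β = c = 1` they are the numbers `n ^ n + 1`.  For sets `S` of indices the number is asymptotic to
`u * ω(u) * V S x` with the sum `V S x` of `1 / log (n ^ n)` over the `n ≤ x` in `S`, whenever this sum tends to
infinity, and otherwise only finitely many of the numbers have this property.  In particular this is so for the indices
`n = 2 ^ (2 ^ k)`, the only `n ≥ 2` for which `n ^ n + 1` can be prime.  The share of the primes among the numbers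
without prime factors up to `N ^ (1 / u)` tends to `1 / (u * ω(u))`.

All this holds for the numbers `⌊β a(n)⌋ + c`, for every sequence `a` of positive reals with
`log a(n) - log a(m) ≥ κ (n - m) log n` for `n > m ≥ n₀`.

Proof (`H538/NN/E1`-`E7`).  Buchstab's asymptotic formula in the short intervals `(X - X ^ (1 - θ), X]` (`H538/S3`,
from the prime number theorem in short intervals) gives the local density of the events in the dyadic intervals of
length `a(n) ^ (-θ)` for `β`.  The events with `a(m) n ≤ a(n) ^ θ` are constant on all but few of these intervals; for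
the other pairs Selberg's sieve, used for `⌊β a(m)⌋ + c` and then, with `⌊β a(m)⌋` fixed, for `⌊β a(n)⌋ + c` in an
interval of length `a(n) / a(m)`, bounds the joint probability by a constant times
`1 / (log a(m) (log a(n) - log a(m)))`, and the sum of this over `m` is at most a constant times `1 / log a(n)`.
-/

namespace Pool.Agent.Results.MP_a70bdc_nt.BuchstabLaw

open Filter Topology MeasureTheory
open Pool.Agent.H538.NN (Grow cnt cP VS nn nn_grow)

/-- The integer `⌊β a(n)⌋ + c`. -/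
noncomputable def N (a : ℕ → ℝ) (c : ℕ) (β : ℝ) (n : ℕ) : ℕ := ⌊β * a n⌋₊ + c

/-- The integer `m` has no prime factor up to `m ^ (1 / u)`. -/
def Rough (u : ℝ) (m : ℕ) : Prop := ∀ l : ℕ, l.Prime → (l : ℝ) ≤ (m : ℝ) ^ (1 / u) → ¬ l ∣ m

open Classical in
/-- The number of the `n ≤ x` in `S` for which `N a c β n` has no prime factor up to its `u`-th root. -/
noncomputable def R (a : ℕ → ℝ) (c : ℕ) (S : Set ℕ) (β u : ℝ) (x : ℕ) : ℕ :=
  ((Finset.range (x + 1)).filter (fun n => n ∈ S ∧ Rough u (N a c β n))).card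

open Classical in
/-- The number of the `n ≤ x` in `S` for which `N a c β n` is prime. -/
noncomputable def Q (a : ℕ → ℝ) (c : ℕ) (S : Set ℕ) (β : ℝ) (x : ℕ) : ℕ :=
  ((Finset.range (x + 1)).filter (fun n => n ∈ S ∧ (N a c β n).Prime)).card

open Classical in
/-- The sum of `1 / log (a n)` over the `n ≤ x` in `S`. -/
noncomputable def V (a : ℕ → ℝ) (S : Set ℕ) (x : ℕ) : ℝ :=
  ∑ n ∈ (Finset.range (x + 1)).filter (fun n => n ∈ S), 1 / Real.log (a n)

/-- The sequence is positive and `log (a n) - log (a m) ≥ κ (n - m) log n` for all `n > m ≥ n₀`, for some `κ > 0`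
and some `n₀`. -/
def Fast (a : ℕ → ℝ) : Prop := (∀ n, 0 < a n) ∧ ∃ (κ : ℝ) (n₀ : ℕ), 0 < κ ∧ ∀ m n : ℕ, n₀ ≤ m → m < n →
  κ * ((n : ℝ) - m) * Real.log n ≤ Real.log (a n) - Real.log (a m)

/-- `ω` is Buchstab's function: it is continuous on `[1, ∞)`, `u ω(u) = 1` for `1 ≤ u ≤ 2` and
`u ω(u) = 1 + ∫_1^(u-1) ω` for `u ≥ 2`. -/
def IsBuchstab (ω : ℝ → ℝ) : Prop :=
  ContinuousOn ω (Set.Ici 1) ∧ (∀ u, 1 ≤ u → u ≤ 2 → u * ω u = 1) ∧
    ∀ u, 2 ≤ u → u * ω u = 1 + ∫ s in (1 : ℝ)..(u - 1), ω s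

theorem isBuchstab_om : IsBuchstab Pool.Agent.R529.BU.om :=
  ⟨Pool.Agent.R529.BU.om_cont.continuousOn, Pool.Agent.R529.BU.om_one_two, Pool.Agent.R529.BU.om_two⟩

theorem unique_aux (ω : ℝ → ℝ) (h : IsBuchstab ω) (n : ℕ) :
    ∀ u : ℝ, 1 ≤ u → u ≤ n + 2 → ω u = Pool.Agent.R529.BU.om u := by
  obtain ⟨-, h1, h2⟩ := h
  have hbase : ∀ u : ℝ, 1 ≤ u → u ≤ 2 → ω u = Pool.Agent.R529.BU.om u := by
    intro u hu1 hu2
    have a1 := h1 u hu1 hu2
    have a2 := Pool.Agent.R529.BU.om_one_two u hu1 hu2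
    exact mul_left_cancel₀ (show u ≠ 0 by linarith) (a1.trans a2.symm)
  induction n with
  | zero =>
    intro u hu1 hu2
    exact hbase u hu1 (by push_cast at hu2; linarith)
  | succ n ih =>
    intro u hu1 hu2
    rcases le_total u 2 with h3 | h3
    · exact hbase u hu1 h3
    · have a1 := h2 u h3
      have a2 := Pool.Agent.R529.BU.om_two u h3
      have a3 : ∫ s in (1 : ℝ)..(u - 1), ω s = ∫ s in (1 : ℝ)..(u - 1), Pool.Agent.R529.BU.om s := by
        apply intervalIntegral.integral_congr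
        intro s hs
        rw [Set.uIcc_of_le (by linarith)] at hs
        push_cast at hu2
        exact ih s hs.1 (by linarith [hs.2])
      rw [a3, ← a2] at a1
      exact mul_left_cancel₀ (show u ≠ 0 by linarith) a1

theorem unique (ω : ℝ → ℝ) (h : IsBuchstab ω) (u : ℝ) (hu : 1 ≤ u) : ω u = Pool.Agent.R529.BU.om u :=
  unique_aux ω h ⌈u⌉₊ u hu (by linarith [Nat.le_ceil u])

lemma Fast.grow {a : ℕ → ℝ} (h : Fast a) : ∃ (κ : ℝ) (n₀ : ℕ), Grow a κ n₀ := by
  obtain ⟨h1, κ, n₀, h2, h3⟩ := h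
  exact ⟨κ, n₀, h1, h2, h3⟩

lemma fast_nn : Fast (fun n : ℕ => (n : ℝ) ^ n) := ⟨nn_grow.pos, 1, 1, nn_grow.κ0, nn_grow.gr⟩

lemma N_nn (n : ℕ) : N (fun n : ℕ => (n : ℝ) ^ n) 1 1 n = n ^ n + 1 := by
  show ⌊(1 : ℝ) * (n : ℝ) ^ n⌋₊ + 1 = n ^ n + 1
  have : ((n : ℝ) ^ n) = ((n ^ n : ℕ) : ℝ) := by push_cast; rfl
  rw [one_mul, this, Nat.floor_natCast]

/-- the indices `2 ^ (2 ^ k)` -/
def Two : Set ℕ := {n | ∃ k : ℕ, n = 2 ^ 2 ^ k}

lemma V_two (x : ℕ) : V nn Two x ≤ 2 / Real.log 2 := by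
  classical
  have hl2 : 0 < Real.log 2 := Real.log_pos (by norm_num)
  have hpos : ∀ n : ℕ, 0 ≤ 1 / Real.log (nn n) := by
    intro n
    rw [Pool.Agent.H538.NN.log_nn]
    have := Real.log_natCast_nonneg n
    positivity
  have hinj : Function.Injective (fun k : ℕ => 2 ^ 2 ^ k) := by
    intro i j h
    exact Nat.pow_right_injective le_rfl (Nat.pow_right_injective le_rfl h)
  unfold V
  have hsub : (Finset.range (x + 1)).filter (fun n => n ∈ Two) ⊆ (Finset.range (x + 1)).image (fun k : ℕ => 2 ^ 2 ^ k) := by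
    intro n hn
    rw [Finset.mem_filter, Finset.mem_range] at hn
    obtain ⟨hn1, k, hk⟩ := hn
    rw [Finset.mem_image]
    refine ⟨k, ?_, hk.symm⟩
    rw [Finset.mem_range]
    have h1 : k < 2 ^ k := Nat.lt_two_pow_self
    have h2 : 2 ^ k < 2 ^ 2 ^ k := Nat.lt_two_pow_self
    omega
  refine (Finset.sum_le_sum_of_subset_of_nonneg hsub fun n _ _ => hpos n).trans ?_
  rw [Finset.sum_image fun i _ j _ h => hinj h]
  have h1 : ∀ k ∈ Finset.range (x + 1), 1 / Real.log (nn (2 ^ 2 ^ k)) ≤ (1 / 2 : ℝ) ^ k * (1 / Real.log 2) := by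
    intro k _
    rw [Pool.Agent.H538.NN.log_nn]
    push_cast
    rw [Real.log_pow]
    push_cast
    rw [one_div_pow, one_div_mul_one_div]
    refine one_div_le_one_div_of_le (by positivity) ?_
    have h3 : (1 : ℝ) ≤ 2 ^ 2 ^ k := one_le_pow₀ (by norm_num)
    have h4 : 0 ≤ (2 : ℝ) ^ k * Real.log 2 := by positivity
    nlinarith
  refine (Finset.sum_le_sum h1).trans ?_
  rw [← Finset.sum_mul]
  have h2 : ∑ k ∈ Finset.range (x + 1), (1 / 2 : ℝ) ^ k ≤ 2 := by
    have h5 := Summable.sum_le_tsum (Finset.range (x + 1)) (fun k _ => by positivity) summable_geometric_two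
    rwa [tsum_geometric_two] at h5
  calc _ ≤ 2 * (1 / Real.log 2) := mul_le_mul_of_nonneg_right h2 (by positivity)
    _ = _ := by ring

/-- The sequence `n ^ n` belongs to the class, with `N = n ^ n + 1` for `β = c = 1`; Buchstab's function exists (and is
unique on `[1, ∞)`, see `unique`).  For every sequence `a` of the class and every set `S` of indices: if `V a S x` tends
to infinity, then for almost every `β > 0`, all `c` and all `u > 1` the number of the `n ≤ x` in `S` for which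
`N = ⌊β a(n)⌋ + c` has no prime factor up to `N ^ (1 / u)` is asymptotic to `u ω(u) V a S x`, and the share of the
primes among these numbers tends to `1 / (u ω(u))`; otherwise, for almost every `β > 0`, all `c` and all `u > 1`, there
are only finitely many such `n` in `S`.  For `a(n) = n ^ n` the number of all such `n ≤ x` is asymptotic to
`u ω(u) log log x`, and only finitely many of them are of the form `2 ^ (2 ^ k)`. -/
theorem result :
    (Fast (fun n : ℕ => (n : ℝ) ^ n) ∧ ∀ n : ℕ, N (fun n : ℕ => (n : ℝ) ^ n) 1 1 n = n ^ n + 1) ∧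
    (∃ ω, IsBuchstab ω) ∧
    (∀ ω, IsBuchstab ω → ∀ a, Fast a → ∀ S : Set ℕ,
      (Tendsto (V a S) atTop atTop → ∀ᵐ β : ℝ, 0 < β → ∀ (c : ℕ) (u : ℝ), 1 < u →
        Tendsto (fun x : ℕ => (R a c S β u x : ℝ) / V a S x) atTop (𝓝 (u * ω u)) ∧
        Tendsto (fun x : ℕ => (Q a c S β x : ℝ) / R a c S β u x) atTop (𝓝 (1 / (u * ω u)))) ∧
      (¬ Tendsto (V a S) atTop atTop → ∀ᵐ β : ℝ, 0 < β → ∀ (c : ℕ) (u : ℝ), 1 < u →
        {n : ℕ | n ∈ S ∧ Rough u (N a c β n)}.Finite)) ∧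
    (∀ ω, IsBuchstab ω → ∀ᵐ β : ℝ, 0 < β → ∀ (c : ℕ) (u : ℝ), 1 < u →
      Tendsto (fun x : ℕ => (R (fun n : ℕ => (n : ℝ) ^ n) c Set.univ β u x : ℝ) / Real.log (Real.log x)) atTop
        (𝓝 (u * ω u)) ∧
      {n : ℕ | (∃ k : ℕ, n = 2 ^ 2 ^ k) ∧ Rough u (N (fun n : ℕ => (n : ℝ) ^ n) c β n)}.Finite) := by
  classical
  have hR : ∀ (a : ℕ → ℝ) (c : ℕ) (S : Set ℕ) (β u : ℝ) (x : ℕ), R a c S β u x = cnt a c S β u x :=
    fun _ _ _ _ _ _ => rfl
  have hQ : ∀ (a : ℕ → ℝ) (c : ℕ) (S : Set ℕ) (β : ℝ) (x : ℕ), Q a c S β x = cP a c S β x :=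
    fun _ _ _ _ _ => rfl
  have hV : ∀ (a : ℕ → ℝ) (S : Set ℕ), V a S = VS a S := fun _ _ => rfl
  have law : ∀ ω, IsBuchstab ω → ∀ a, Fast a → ∀ S : Set ℕ, Tendsto (V a S) atTop atTop →
      ∀ᵐ β : ℝ, 0 < β → ∀ (c : ℕ) (u : ℝ), 1 < u →
        Tendsto (fun x : ℕ => (R a c S β u x : ℝ) / V a S x) atTop (𝓝 (u * ω u)) ∧
        Tendsto (fun x : ℕ => (Q a c S β x : ℝ) / R a c S β u x) atTop (𝓝 (1 / (u * ω u))) := by
    intro ω hω a ha S hS
    obtain ⟨κ, n₀, hg⟩ := ha.grow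
    have h1 : ∀ᵐ β : ℝ, ∀ c : ℕ, 0 < β → ∀ u : ℝ, 1 < u →
        Tendsto (fun x : ℕ => (cnt a c S β u x : ℝ) / VS a S x) atTop (𝓝 (Pool.Agent.R529.BU.WW u)) :=
      ae_all_iff.2 fun c => Pool.Agent.H538.NN.law_VS hg c S hS
    filter_upwards [h1] with β hβ h0 c u hu
    rw [unique ω hω u hu.le]
    exact ⟨hβ c h0 u hu, Pool.Agent.H538.NN.share hg c S hS h0 (hβ c h0) hu⟩
  have fin : ∀ a, Fast a → ∀ S : Set ℕ, ¬ Tendsto (V a S) atTop atTop →
      ∀ᵐ β : ℝ, 0 < β → ∀ (c : ℕ) (u : ℝ), 1 < u → {n : ℕ | n ∈ S ∧ Rough u (N a c β n)}.Finite := by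
    intro a ha S hS
    obtain ⟨κ, n₀, hg⟩ := ha.grow
    have h1 := ae_all_iff.2 fun c => Pool.Agent.H538.NN.fin_VS hg c S hS
    filter_upwards [h1] with β hβ h0 c u hu
    exact hβ c h0 u hu
  refine ⟨⟨fast_nn, N_nn⟩, ⟨_, isBuchstab_om⟩, fun ω hω a ha S => ⟨law ω hω a ha S, fin a ha S⟩, fun ω hω => ?_⟩
  have h1 := law ω hω _ fast_nn Set.univ Pool.Agent.H538.NN.VS_nn_atTop
  have h2 : ¬ Tendsto (V (fun n : ℕ => (n : ℝ) ^ n) Two) atTop atTop := by
    intro h
    obtain ⟨x, hx⟩ := (h.eventually_gt_atTop (2 / Real.log 2)).exists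
    exact absurd (V_two x) (not_le.2 hx)
  filter_upwards [h1, fin _ fast_nn Two h2] with β hβ hβ2 h0 c u hu
  refine ⟨?_, hβ2 h0 c u hu⟩
  refine Pool.Agent.H538.NN.ratio_shift (B := 2) Pool.Agent.H538.NN.VS_nn_atTop ?_ (hβ h0 c u hu).1
  exact Pool.Agent.H538.NN.VS_abs_symm Pool.Agent.H538.NN.VS_nn_close

end Pool.Agent.Results.MP_a70bdc_nt.BuchstabLaw
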