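import Pool.Agent.H107.FD.Core

/-!
# Complementary divisors of `n ^ n + 1`

Author: helper107.

If `n ^ n + 1` is prime and `n ≥ 2`, then `n = 2 ^ (2 ^ k)`. Let `n = 2 ^ (2 ^ k)`, `k ≥ 2`, and `n ^ n + 1 = a b`.
We prove that the difference of `a` and `b`, and more generally the difference of `s ^ 2 a` and `r ^ 2 b` for all
small `r` and `s`, cannot be small (so in a search for divisors with the method of Fermat and Lehman all quotients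
`b / a` near the square of a rational number of small height can be left out): with `M = 4 n log_2 n`,

* `(s ^ 2 a - r ^ 2 b) ^ 2 ≥ 4 r s (M + r ^ 2 + s ^ 2) n ^ (n / 2)` for all `r, s ≥ 1` with `r ^ 2 + s ^ 2 < M`;
* `(a - b) ^ 2 ≥ 68 M ^ 2 n ^ (n / 2)`.

The numbers `n ^ n + 1` are of the form `A ^ 2 + 1`, and for all factorizations `a b` of such numbers one has the
trivial bound `(s ^ 2 a - r ^ 2 b) ^ 2 > 4 r s A - 4 (r s) ^ 2`, since `(s ^ 2 a + r ^ 2 b) ^ 2` is larger than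
`(2 r s A) ^ 2`. The same is proved for all Fermat numbers `F_m = 2 ^ (2 ^ m) + 1`, `m ≥ 6`; `n ^ n + 1` is the Fermat
number with the index `m = k + 2 ^ k`.

Proof. All divisors of `F_m` are `≡ 1` modulo `M = 2 ^ (m + 2)`. So `S = s ^ 2 a + r ^ 2 b` is `≡ r ^ 2 + s ^ 2` modulo
`M`, and `S ^ 2 = D ^ 2 + 4 (r s) ^ 2 (A ^ 2 + 1)` with `D = s ^ 2 a - r ^ 2 b`. The least possible value is
`S = 2 r s A + r ^ 2 + s ^ 2`, and then `D ^ 2 - (s ^ 2 - r ^ 2) ^ 2` is divisible by a power of two which is too large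
for `D` (for `r ≠ s`); hence `S ≥ 2 r s A + r ^ 2 + s ^ 2 + M`. If `r = s = 1`, then `S` is known modulo `M ^ 2`, and
`S = 2 + (T + j) M ^ 2` with `A = T M ^ 2 / 2`; the conditions modulo 3 and 16 show that `j ≥ 17`.
-/

set_option autoImplicit false

namespace Pool.Agent.Results.MP_a70bdc_nt.ComplementaryDivisors

/-- **Complementary divisors of `n ^ n + 1`, `n = 2 ^ (2 ^ k)`, and of the Fermat numbers.** -/
theorem result :
    -- (1) the numbers `n ^ n + 1`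
    (∀ k n : ℕ, 2 ≤ k → n = 2 ^ (2 ^ k) → ∀ a b : ℕ, a * b = n ^ n + 1 →
      (∀ r s : ℕ, 0 < r → 0 < s → r ^ 2 + s ^ 2 < 4 * 2 ^ k * n →
        4 * (r : ℤ) * s * (4 * 2 ^ k * n + r ^ 2 + s ^ 2) * n ^ (n / 2) ≤
          ((s : ℤ) ^ 2 * a - (r : ℤ) ^ 2 * b) ^ 2) ∧
      68 * (4 * 2 ^ k * (n : ℤ)) ^ 2 * n ^ (n / 2) ≤ ((a : ℤ) - b) ^ 2) ∧
    -- (2) the Fermat numbers
    (∀ m : ℕ, 6 ≤ m → ∀ a b : ℕ, a * b = 2 ^ (2 ^ m) + 1 →
      (∀ r s : ℕ, 0 < r → 0 < s → r ^ 2 + s ^ 2 < 2 ^ (m + 2) →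
        4 * (r : ℤ) * s * (2 ^ (m + 2) + r ^ 2 + s ^ 2) * 2 ^ (2 ^ (m - 1)) ≤
          ((s : ℤ) ^ 2 * a - (r : ℤ) ^ 2 * b) ^ 2) ∧
      68 * (2 ^ (m + 2)) ^ 2 * 2 ^ (2 ^ (m - 1)) ≤ ((a : ℤ) - b) ^ 2) := by
  have h2 : ∀ m : ℕ, 6 ≤ m → ∀ a b : ℕ, a * b = 2 ^ (2 ^ m) + 1 →
      (∀ r s : ℕ, 0 < r → 0 < s → r ^ 2 + s ^ 2 < 2 ^ (m + 2) →
        4 * (r : ℤ) * s * (2 ^ (m + 2) + r ^ 2 + s ^ 2) * 2 ^ (2 ^ (m - 1)) ≤
          ((s : ℤ) ^ 2 * a - (r : ℤ) ^ 2 * b) ^ 2) ∧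
      68 * (2 ^ (m + 2)) ^ 2 * 2 ^ (2 ^ (m - 1)) ≤ ((a : ℤ) - b) ^ 2 := by
    intro m hm a b hab
    refine ⟨fun r s hr hs hrs => ?_, ?_⟩
    · have h := Pool.Agent.H107.FD.gap hm hab hr hs hrs
      push_cast at h
      rw [← mul_assoc] at h
      exact h
    · have h := Pool.Agent.H107.FD.gap_one hm hab
      push_cast at h
      exact h
  refine ⟨?_, h2⟩
  intro k n hk hn a b hab
  obtain ⟨m, hm⟩ : ∃ m, m = k + 2 ^ k := ⟨_, rfl⟩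
  have h4 : 4 ≤ 2 ^ k := by
    calc 4 = 2 ^ 2 := by norm_num
      _ ≤ 2 ^ k := Nat.pow_le_pow_right (by norm_num) hk
  have hm6 : 6 ≤ m := by omega
  have e1 : 2 ^ (m + 2) = 4 * 2 ^ k * n := by
    rw [hm, hn, pow_add, pow_add]
    ring
  have e2 : n ^ n = 2 ^ (2 ^ m) := by
    nth_rewrite 1 [hn]
    rw [← pow_mul, hm, pow_add, ← hn]
  have e3 : n ^ (n / 2) = 2 ^ (2 ^ (m - 1)) := by
    have h5 : n / 2 = 2 ^ (2 ^ k - 1) := by
      rw [hn]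
      obtain ⟨c, hc⟩ : ∃ c, 2 ^ k = c + 1 := ⟨2 ^ k - 1, by omega⟩
      rw [hc, pow_succ, Nat.mul_div_cancel _ (by norm_num)]
      simp
    rw [h5]
    nth_rewrite 1 [hn]
    rw [← pow_mul, ← pow_add, hm]
    congr 2
    omega
  rw [e2] at hab
  obtain ⟨h6, h7⟩ := h2 m hm6 a b hab
  have e1' : (2 : ℤ) ^ (m + 2) = 4 * 2 ^ k * (n : ℤ) := by exact_mod_cast e1
  have e3' : (n : ℤ) ^ (n / 2) = 2 ^ (2 ^ (m - 1)) := by exact_mod_cast e3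
  refine ⟨fun r s hr hs hrs => ?_, ?_⟩
  · rw [← e1] at hrs
    have h8 := h6 r s hr hs hrs
    rw [e1'] at h8
    rw [e3']
    exact h8
  · rw [e1'] at h7
    rw [e3']
    exact h7

end Pool.Agent.Results.MP_a70bdc_nt.ComplementaryDivisors
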